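import Mathlib

set_option autoImplicit false

universe u

namespace Pool.Agent.Results.MP_2e9b9b_lc.Converse

open Cardinal Set

/-- The generalized continuum hypothesis. -/
def GCH : Prop := ∀ κ : Cardinal.{u}, ℵ₀ ≤ κ → (2 : Cardinal.{u}) ^ κ = Order.succ κ

/-- The ordinary partition relation `κ → (η k; k < γ)^m`. -/
def Arrow (κ γ : Cardinal.{u}) (η : γ.ord.ToType → Ordinal.{u}) (m : ℕ) : Prop :=
  ∀ c : {s : Finset κ.ord.ToType // s.card = m} → γ.ord.ToType,
    ∃ (k : γ.ord.ToType) (H : Set κ.ord.ToType),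
      Ordinal.type (fun a b : H => a < b) = η k ∧
      ∀ s : {s : Finset κ.ord.ToType // s.card = m}, (s.1 : Set κ.ord.ToType) ⊆ H → c s = k

theorem sub_type {W : Type u} [LinearOrder W] [WellFoundedLT W] (G : Set W) (η : Cardinal.{u})
    (h : η ≤ #G) : ∃ H : Set W, H ⊆ G ∧ Ordinal.type (fun a b : H => a < b) = η.ord := by
  have h1 : η.ord ≤ Ordinal.type (fun a b : G => a < b) := by
    rw [ord_le, Ordinal.card_type]
    exact h
  rw [← Ordinal.type_toType η.ord] at h1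
  obtain ⟨e⟩ := Ordinal.type_le_iff'.1 h1
  let f : η.ord.ToType ↪o W := OrderEmbedding.ofStrictMono (fun x => (e x : W))
    (fun a b hab => e.map_rel_iff.2 hab)
  refine ⟨range f, ?_, ?_⟩
  · rintro _ ⟨x, rfl⟩
    exact (e x).2
  · exact (Ordinal.type_eq.2 ⟨f.orderIso.toRelIsoLT⟩).symm.trans (Ordinal.type_toType η.ord)

theorem top {W : Type u} [LinearOrder W] [WellFoundedLT W] (H : Set W) (η : Cardinal.{u})
    (h : Ordinal.type (fun a b : H => a < b) = η.ord + 1) :
    ∃ a ∈ H, η ≤ #{x | x ∈ H ∧ x < a} := by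
  have h1 : η.ord < Ordinal.type (fun a b : H => a < b) := by
    rw [h]
    exact lt_add_one _
  obtain ⟨a, ha⟩ := Ordinal.typein_surj _ h1
  refine ⟨a, a.2, ?_⟩
  have h2 := congrArg Ordinal.card ha
  rw [card_ord, Ordinal.card_typein] at h2
  rw [← h2]
  exact mk_le_of_injective (f := fun x => ⟨x.1.1, x.1.2, x.2⟩)
    (fun x y hxy => Subtype.ext (Subtype.ext (Subtype.mk.inj hxy)))

theorem result (hGCH : GCH.{u}) (κ γ : Cardinal.{u}) (n : ℕ) (η : γ.ord.ToType → Cardinal.{u})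
    (hκ : ℵ₀ ≤ κ) (_hn : 2 ≤ n) (_hγ : 2 ≤ γ ∧ γ < κ) (_hη : ∀ k, n < η k ∧ η k ≤ κ)
    (h : ¬ Arrow κ γ (fun k => (η k).ord) n) :
    ¬ Arrow (2 ^ κ) γ (fun k => (η k).ord + 1) (n + 1) := by
  classical
  rw [hGCH κ hκ]
  intro h1
  apply h
  intro c
  have hne : Nonempty κ.ord.ToType := by
    rw [← mk_ne_zero_iff, mk_ord_toType]
    exact ne_of_gt (lt_of_lt_of_le aleph0_pos hκ)
  have h2 : ∀ a : (Order.succ κ).ord.ToType, ∃ f : (Order.succ κ).ord.ToType → κ.ord.ToType,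
      InjOn f (Iio a) := by
    intro a
    have h3 := mk_Iio_lt a (by simp)
    rw [mk_ord_toType] at h3
    obtain ⟨g⟩ : Nonempty (Iio a ↪ κ.ord.ToType) := by
      rw [← Cardinal.le_def, mk_ord_toType]
      exact Order.lt_succ_iff.1 h3
    refine ⟨Function.extend Subtype.val g (fun _ => Classical.arbitrary _), fun x hx y hy hxy => ?_⟩
    have h4 := Subtype.val_injective.extend_apply g (fun _ => Classical.arbitrary _) ⟨x, hx⟩
    have h5 := Subtype.val_injective.extend_apply g (fun _ => Classical.arbitrary _) ⟨y, hy⟩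
    exact congrArg Subtype.val (g.injective (h4.symm.trans (hxy.trans h5)))
  choose f hf using h2
  have h3 : ∀ s : {s : Finset (Order.succ κ).ord.ToType // s.card = n + 1}, s.1.Nonempty :=
    fun s => Finset.card_pos.1 (by rw [s.2]; exact Nat.succ_pos n)
  have h4 : ∀ s : {s : Finset (Order.succ κ).ord.ToType // s.card = n + 1},
      ((s.1.erase (s.1.max' (h3 s))).image (f (s.1.max' (h3 s)))).card = n := by
    intro s
    rw [Finset.card_image_of_injOn ((hf _).mono (fun x hx => ?_)),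
      Finset.card_erase_of_mem (Finset.max'_mem _ _), s.2, Nat.add_sub_cancel]
    exact Finset.lt_max'_of_mem_erase_max' _ _ hx
  obtain ⟨k, H, hH1, hH2⟩ := h1 (fun s => c ⟨_, h4 s⟩)
  obtain ⟨a, ha1, ha2⟩ := top H _ hH1
  obtain ⟨G, hG1, hG2⟩ := sub_type (f a '' {x | x ∈ H ∧ x < a}) (η k)
    (by rwa [mk_image_eq_of_injOn _ _ ((hf a).mono (fun x hx => hx.2))])
  refine ⟨k, G, hG2, fun s hs => ?_⟩
  obtain ⟨t, ht1, ht2⟩ := Finset.subset_set_image_iff.1 (hs.trans hG1)
  have h5 : a ∉ t := fun h6 => lt_irrefl a (ht1 h6).2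
  have h6 : (insert a t).card = n + 1 := by
    rw [Finset.card_insert_of_notMem h5, ← s.2, ← ht2,
      Finset.card_image_of_injOn ((hf a).mono (fun x hx => (ht1 hx).2))]
  have h7 : (insert a t).max' (h3 ⟨_, h6⟩) = a :=
    le_antisymm (Finset.max'_le _ _ _ (fun y hy => (Finset.mem_insert.1 hy).elim le_of_eq
      (fun g => (ht1 g).2.le))) (Finset.le_max' _ _ (Finset.mem_insert_self a t))
  rw [← hH2 ⟨_, h6⟩ (by
    rw [Finset.coe_insert]
    exact insert_subset ha1 (fun x hx => (ht1 hx).1))]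
  congr 1
  refine Subtype.ext ?_
  simp only [h7, Finset.erase_insert h5, ht2]

end Pool.Agent.Results.MP_2e9b9b_lc.Converse
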